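import Pool.Agent.Q33.BinSum

set_option autoImplicit false

namespace Pool.Agent.Results.MP_ede29a_nt.BinomialPowerSums

open Finset

/-- `f_n^{(r)} = ∑_{k ≤ n} C(n,k)^r`. -/
def f (r n : ℕ) : ℕ := ∑ k ∈ range (n + 1), n.choose k ^ r

/-- For all `r ≥ 0` and `n ≥ 1`, `2n` divides `∑_{k<n} (-1)^{rk} (3k+2) f_k^{(r)}`. -/
theorem result : ∀ r n : ℕ, 1 ≤ n →
    (2 * n : ℤ) ∣ ∑ k ∈ range n, (-1 : ℤ) ^ (r * k) * (3 * k + 2) * (f r k : ℤ) := by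
  intro r n hn
  have h := Pool.Agent.Q33.BinSum.main 2 n r (by norm_num) hn
  have e : ∑ k ∈ range n, (-1 : ℤ) ^ (r * k) * (3 * k + 2) * (f r k : ℤ)
      = ∑ k ∈ range n, (-1) ^ (r * k) * (((((2 : ℕ) : ℤ) + 1) * k + (2 : ℕ)) *
        (Pool.Agent.Q33.BinSum.M 2 k r : ℤ)) := by
    refine Finset.sum_congr rfl fun k _ => ?_
    rw [Pool.Agent.Q33.BinSum.M_two, f]
    push_cast
    ring
  rw [e]
  push_cast at h ⊢
  exact h

end Pool.Agent.Results.MP_ede29a_nt.BinomialPowerSums
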